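import Pool.Agent.Helper61_LT.Stmts

/-!
# LT: DVS, the differential of the finite model
-/

set_option autoImplicit false
set_option linter.unusedSectionVars false

namespace Pool.Agent.LT.H75

open Matrix Pool.Agent.LT

noncomputable section

/-! ### Linear extension -/

section lin

variable {A B : Type}

theorem lin_zero (F : A → (B →₀ ℤ)) : lin F 0 = 0 := Finsupp.sum_zero_index

theorem lin_add (F : A → (B →₀ ℤ)) (z z' : A →₀ ℤ) : lin F (z + z') = lin F z + lin F z' := by
  unfold lin
  rw [Finsupp.sum_add_index']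
  · intro a
    exact zero_smul _ _
  · intro a b c
    exact add_smul _ _ _

theorem lin_single (F : A → (B →₀ ℤ)) (a : A) (k : ℤ) :
    lin F (Finsupp.single a k) = k • F a := by
  unfold lin
  rw [Finsupp.sum_single_index]
  exact zero_smul _ _

/-- The linear extension as an additive map. -/
def linHom (F : A → (B →₀ ℤ)) : (A →₀ ℤ) →+ (B →₀ ℤ) where
  toFun := lin F
  map_zero' := lin_zero F
  map_add' := lin_add F

theorem lin_sum {ι : Type} (F : A → (B →₀ ℤ)) (s : Finset ι) (z : ι → (A →₀ ℤ)) :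
    lin F (∑ i ∈ s, z i) = ∑ i ∈ s, lin F (z i) := map_sum (linHom F) z s

theorem lin_smul (F : A → (B →₀ ℤ)) (k : ℤ) (z : A →₀ ℤ) : lin F (k • z) = k • lin F z :=
  map_zsmul (linHom F) k z

theorem lin_congr {F F' : A → (B →₀ ℤ)} {z : A →₀ ℤ} (h : ∀ a ∈ z.support, F a = F' a) :
    lin F z = lin F' z := by
  unfold lin
  refine Finsupp.sum_congr fun a ha => ?_
  rw [h a ha]

theorem lin_apply (F : A → (B →₀ ℤ)) (z : A →₀ ℤ) (b : B) :
    lin F z b = z.sum fun a k => k * F a b := by
  unfold lin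
  rw [Finsupp.sum_apply]
  rfl

theorem lin_mapDomain {A' : Type} (F : A → (B →₀ ℤ)) (f : A' → A) (z : A' →₀ ℤ) :
    lin F (z.mapDomain f) = lin (fun a => F (f a)) z := by
  unfold lin
  rw [Finsupp.sum_mapDomain_index]
  · intro a
    exact zero_smul _ _
  · intro a b c
    exact add_smul _ _ _

theorem mapDomain_lin {B' : Type} (F : A → (B →₀ ℤ)) (f : B → B') (z : A →₀ ℤ) :
    (lin F z).mapDomain f = lin (fun a => (F a).mapDomain f) z := by
  induction z using Finsupp.induction_linear with
  | zero => rw [lin_zero, lin_zero, Finsupp.mapDomain_zero]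
  | add z z' h h' => rw [lin_add, lin_add, Finsupp.mapDomain_add, h, h']
  | single a k => rw [lin_single, lin_single, Finsupp.mapDomain_smul]

theorem lin_single_one (z : A →₀ ℤ) : lin (fun a => Finsupp.single a 1) z = z := by
  induction z using Finsupp.induction_linear with
  | zero => exact lin_zero _
  | add z z' h h' => rw [lin_add, h, h']
  | single a k => rw [lin_single, Finsupp.smul_single, smul_eq_mul, mul_one]

end lin

/-! ### Chains as row vectors -/

section chains

variable {G : Type} [Group G] {X : Type} [Fintype X]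

/-- The chain of a row vector. -/
def tof (z : X → MonoidAlgebra ℤ G) : G × X →₀ ℤ := ∑ y, (z y).coeff.mapDomain fun g => (g, y)

theorem tof_add (z z' : X → MonoidAlgebra ℤ G) : tof (z + z') = tof z + tof z' := by
  unfold tof
  rw [← Finset.sum_add_distrib]
  refine Finset.sum_congr rfl fun y _ => ?_
  rw [Pi.add_apply, MonoidAlgebra.coeff_add, Finsupp.mapDomain_add]

theorem tof_zero : tof (0 : X → MonoidAlgebra ℤ G) = 0 := by
  have h := tof_add (0 : X → MonoidAlgebra ℤ G) 0
  rw [add_zero] at h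
  exact left_eq_add.mp h

/-- The chain of a row vector, as an additive map. -/
def tofHom : (X → MonoidAlgebra ℤ G) →+ (G × X →₀ ℤ) where
  toFun := tof
  map_zero' := tof_zero
  map_add' := tof_add

theorem tof_single [DecidableEq X] (y : X) (g : G) (c : ℤ) :
    tof (Pi.single y (MonoidAlgebra.single g c)) = Finsupp.single (g, y) c := by
  unfold tof
  rw [Finset.sum_eq_single y]
  · rw [Pi.single_eq_same, MonoidAlgebra.coeff_single, Finsupp.mapDomain_single]
  · intro b _ hb
    rw [Pi.single_eq_of_ne hb]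
    exact Finsupp.mapDomain_zero
  · intro h
    exact absurd (Finset.mem_univ _) h

theorem trl_add (g : G) (z z' : G × X →₀ ℤ) : trl g (z + z') = trl g z + trl g z' :=
  Finsupp.mapDomain_add

theorem trl_mul (g h : G) (z : G × X →₀ ℤ) : trl (g * h) z = trl g (trl h z) := by
  unfold trl
  rw [← Finsupp.mapDomain_comp]
  congr 1
  funext p
  simp [mul_assoc]

theorem trl_tof (g : G) (z : X → MonoidAlgebra ℤ G) :
    trl g (tof z) = tof fun y => MonoidAlgebra.single g 1 * z y := by
  unfold trl tof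
  rw [Finsupp.mapDomain_finsetSum]
  refine Finset.sum_congr rfl fun y _ => ?_
  rw [← Finsupp.mapDomain_comp]
  change _ = (MonoidAlgebra.single g 1 * z y).coeff.mapDomain fun g => (g, y)
  induction z y using MonoidAlgebra.induction_linear with
  | zero =>
    rw [mul_zero]
    exact Finsupp.mapDomain_zero.trans Finsupp.mapDomain_zero.symm
  | add a b ha hb =>
    rw [mul_add, MonoidAlgebra.coeff_add, MonoidAlgebra.coeff_add, Finsupp.mapDomain_add,
      Finsupp.mapDomain_add, ha, hb]
  | single h c =>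
    rw [MonoidAlgebra.single_mul_single, MonoidAlgebra.coeff_single, MonoidAlgebra.coeff_single,
      Finsupp.mapDomain_single, Finsupp.mapDomain_single, one_mul]
    rfl

end chains

section res

variable {G : Type} [Group G] (C : Res G)

theorem row_tof (x : C.X) : C.row x = tof (C.bd x) := rfl

theorem lin_bdc_tof (z : C.X → MonoidAlgebra ℤ G) : lin C.bdc (tof z) = tof (z ᵥ* C.bd) := by
  have key : ∀ (y : C.X) (a : MonoidAlgebra ℤ G),
      lin C.bdc (tof (Pi.single y a)) = tof (Pi.single y a ᵥ* C.bd) := by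
    intro y a
    rw [Matrix.single_vecMul]
    induction a using MonoidAlgebra.induction_linear with
    | zero =>
      rw [Pi.single_zero, tof_zero, lin_zero, zero_smul, tof_zero]
    | add a b ha hb =>
      rw [Pi.single_add, tof_add, lin_add, ha, hb, add_smul, tof_add]
    | single g c =>
      rw [tof_single, lin_single]
      change c • trl g (tof (C.bd y)) = _
      rw [trl_tof]
      change c • tofHom _ = tofHom _
      rw [← map_zsmul]
      congr 1
      funext w
      change c • (MonoidAlgebra.single g 1 * C.bd y w) = MonoidAlgebra.single g c * C.bd y w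
      rw [← smul_mul_assoc, MonoidAlgebra.smul_single, smul_eq_mul, mul_one]
  have h : z = ∑ y, Pi.single y (z y) := by
    funext w
    rw [Finset.sum_apply, Finset.sum_eq_single w]
    · rw [Pi.single_eq_same]
    · intro b _ hb
      rw [Pi.single_eq_of_ne (Ne.symm hb)]
    · intro h
      exact absurd (Finset.mem_univ _) h
  rw [h]
  have e1 : tof (∑ y, Pi.single y (z y)) = ∑ y, tof (Pi.single y (z y)) :=
    map_sum tofHom _ _
  rw [e1, lin_sum, Matrix.sum_vecMul]
  have e2 : tof (∑ y, Pi.single y (z y) ᵥ* C.bd) = ∑ y, tof (Pi.single y (z y) ᵥ* C.bd) :=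
    map_sum tofHom _ _
  rw [e2]
  exact Finset.sum_congr rfl fun y _ => key y (z y)

theorem bd_bd (x : C.X) : C.bd x ᵥ* C.bd = 0 := by
  have h := (C.exact (C.bd x)).2 ⟨Pi.single x 1, by
    rw [Matrix.single_one_vecMul]; rfl⟩
  exact h.1

theorem lin_bdc_row (x : C.X) : lin C.bdc (C.row x) = 0 := by
  rw [row_tof, lin_bdc_tof, bd_bd, tof_zero]

theorem row_dim (x : C.X) (p : G × C.X) (hp : p ∈ (C.row x).support) :
    C.dim x = C.dim p.2 + 1 := by
  apply C.bd_dim
  intro h
  rw [Finsupp.mem_support_iff] at hp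
  apply hp
  unfold Res.row
  rw [Finsupp.finsetSum_apply]
  refine Finset.sum_eq_zero fun y _ => ?_
  by_cases hy : y = p.2
  · rw [hy, h]
    exact DFunLike.congr_fun Finsupp.mapDomain_zero p
  · rw [Finsupp.mapDomain_of_notMem_range]
    rintro ⟨g, hg⟩
    exact hy (congrArg Prod.snd hg)

end res

/-! ### Finite models -/

section model

variable {G V X : Type} [Group G] (a : V → G → V)

theorem bet_zero (v : V) : bet a v (0 : G × X →₀ ℤ) = 0 := Finsupp.mapDomain_zero

theorem bet_add (v : V) (z z' : G × X →₀ ℤ) : bet a v (z + z') = bet a v z + bet a v z' :=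
  Finsupp.mapDomain_add

theorem bet_single (v : V) (g : G) (x : X) (k : ℤ) :
    bet a v (Finsupp.single (g, x) k) = Finsupp.single (a v g, x) k := Finsupp.mapDomain_single

theorem bet_eq_sum (v : V) (z : G × X →₀ ℤ) (w : V × X) :
    bet a v z w = z.sum fun p k => Finsupp.single (a v p.1, p.2) k w := by
  unfold bet Finsupp.mapDomain
  rw [Finsupp.sum_apply]

theorem bet_trl (v : V) (g : G) (z : G × X →₀ ℤ)
    (h : ∀ p ∈ z.support, a (a v g) p.1 = a v (g * p.1)) :
    bet a (a v g) z = bet a v (trl g z) := by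
  unfold bet trl
  rw [← Finsupp.mapDomain_comp]
  refine Finsupp.mapDomain_congr fun p hp => ?_
  change (a (a v g) p.1, p.2) = (a v (g * p.1), p.2)
  rw [h p hp]

theorem bet_lin {A : Type} (v : V) (F : A → (G × X →₀ ℤ)) (z : A →₀ ℤ) :
    bet a v (lin F z) = lin (fun p => bet a v (F p)) z := mapDomain_lin _ _ _

/-- The sum of the absolute values of the coefficients. -/
def nrm {A : Type} (z : A →₀ ℤ) : ℝ := z.sum fun _ k => |(k : ℝ)|

theorem nrm_nonneg {A : Type} (z : A →₀ ℤ) : 0 ≤ nrm z :=
  Finset.sum_nonneg fun _ _ => abs_nonneg _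

theorem abs_mapDomain_sum {A B : Type} [Fintype B] (f : A → B) (z : A →₀ ℤ) :
    ∑ w, |((z.mapDomain f w : ℤ) : ℝ)| ≤ nrm z := by
  classical
  unfold nrm Finsupp.sum
  have h1 : ∀ w, |((z.mapDomain f w : ℤ) : ℝ)| ≤
      ∑ p ∈ z.support, |((Finsupp.single (f p) (z p) w : ℤ) : ℝ)| := by
    intro w
    unfold Finsupp.mapDomain
    rw [Finsupp.sum_apply]
    unfold Finsupp.sum
    rw [Int.cast_sum]
    exact Finset.abs_sum_le_sum_abs _ _
  refine (Finset.sum_le_sum fun w _ => h1 w).trans ?_
  rw [Finset.sum_comm]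
  refine Finset.sum_le_sum fun p _ => ?_
  rw [Finset.sum_eq_single (f p)]
  · rw [Finsupp.single_eq_same]
  · intro b _ hb
    rw [Finsupp.single_eq_of_ne hb, Int.cast_zero, abs_zero]
  · intro h
    exact absurd (Finset.mem_univ _) h

/-- A family of maps `f v`, such that for every `p` and `w` at most one `v` has `f v p = w`. -/
theorem abs_mapDomain_sum' {A B : Type} [Fintype V] (f : V → A → B) (z : A →₀ ℤ) (w : B)
    (hf : ∀ p v v', f v p = w → f v' p = w → v = v') :
    ∑ v, |((z.mapDomain (f v) w : ℤ) : ℝ)| ≤ nrm z := by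
  classical
  unfold nrm Finsupp.sum
  have h1 : ∀ v, |((z.mapDomain (f v) w : ℤ) : ℝ)| ≤
      ∑ p ∈ z.support, |((Finsupp.single (f v p) (z p) w : ℤ) : ℝ)| := by
    intro v
    unfold Finsupp.mapDomain
    rw [Finsupp.sum_apply]
    unfold Finsupp.sum
    rw [Int.cast_sum]
    exact Finset.abs_sum_le_sum_abs _ _
  refine (Finset.sum_le_sum fun v _ => h1 v).trans ?_
  rw [Finset.sum_comm]
  refine Finset.sum_le_sum fun p _ => ?_
  by_cases h : ∃ v, f v p = w
  · obtain ⟨v, hv⟩ := h
    rw [Finset.sum_eq_single v]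
    · rw [hv, Finsupp.single_eq_same]
    · intro b _ hb
      have : w ≠ f b p := fun h => hb (hf p b v h.symm hv)
      rw [Finsupp.single_eq_of_ne this, Int.cast_zero, abs_zero]
    · intro h
      exact absurd (Finset.mem_univ _) h
  · have h2 : ∀ v, |((Finsupp.single (f v p) (z p) w : ℤ) : ℝ)| = 0 := by
      intro v
      have : w ≠ f v p := fun h' => h ⟨v, h'.symm⟩
      rw [Finsupp.single_eq_of_ne this, Int.cast_zero, abs_zero]
    rw [Finset.sum_eq_zero fun v _ => h2 v]
    exact abs_nonneg _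

theorem abs_bet_sum [Fintype V] [Fintype X] (v : V) (z : G × X →₀ ℤ) :
    ∑ w, |((bet a v z w : ℤ) : ℝ)| ≤ nrm z := abs_mapDomain_sum _ _

theorem abs_bet_sum' [Fintype V] (ha : ∀ g, Function.Bijective fun v => a v g)
    (z : G × X →₀ ℤ) (w : V × X) : ∑ v, |((bet a v z w : ℤ) : ℝ)| ≤ nrm z := by
  refine abs_mapDomain_sum' (fun v (p : G × X) => (a v p.1, p.2)) z w fun p v v' h h' => ?_
  apply (ha p.1).injective
  exact (congrArg Prod.fst h).trans (congrArg Prod.fst h').symm

theorem gdn_le (R : Finset G) (k : ℕ) : Gdn a R k ⊆ Gd a R := by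
  cases k with
  | zero => exact subset_rfl
  | succ k => exact fun v hv => hv.1

end model

section main

variable {G V : Type} [Group G] [Fintype V] [DecidableEq V] (C : Res G) (a : V → G → V)

theorem dV_pos (R : Finset G) (w v : V × C.X) (h : v.1 ∈ Gdn a R (C.dim v.2)) :
    dV C a R w v = bet a v.1 (C.row v.2) w := if_pos h

theorem dV_neg (R : Finset G) (w v : V × C.X) (h : v.1 ∉ Gdn a R (C.dim v.2)) :
    dV C a R w v = 0 := if_neg h

/-- `dV` on a chain at a good point. -/
theorem dV_bet (R : Finset G) (hR : ∀ x, ∀ p ∈ (C.row x).support, p.1 ∈ R) (v : V)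
    (hv : v ∈ Gd a R) (z : G × C.X →₀ ℤ) (hz : ∀ p ∈ z.support, p.1 ∈ R)
    (hz' : ∀ p ∈ z.support, a v p.1 ∈ Gdn a R (C.dim p.2)) (w : V × C.X) :
    ∑ u, dV C a R w u * bet a v z u = bet a v (lin C.bdc z) w := by
  classical
  rw [bet_lin, lin_apply]
  have h1 : ∀ u, dV C a R w u * bet a v z u =
      ∑ p ∈ z.support, dV C a R w u * Finsupp.single (a v p.1, p.2) (z p) u := by
    intro u
    rw [bet_eq_sum]
    unfold Finsupp.sum
    rw [Finset.mul_sum]
  rw [Finset.sum_congr rfl fun u _ => h1 u, Finset.sum_comm]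
  unfold Finsupp.sum
  refine Finset.sum_congr rfl fun p hp => ?_
  rw [Finset.sum_eq_single (a v p.1, p.2)]
  · rw [Finsupp.single_eq_same, dV_pos C a R w (a v p.1, p.2) (hz' p hp), mul_comm]
    congr 1
    change bet a (a v p.1) (C.row p.2) w = bet a v (trl p.1 (C.row p.2)) w
    rw [bet_trl a v p.1 (C.row p.2) fun q hq => hv.2.1 p.1 (hz p hp) q.1 (hR p.2 q hq)]
  · intro b _ hb
    rw [Finsupp.single_eq_of_ne hb, mul_zero]
  · intro h
    exact absurd (Finset.mem_univ _) h

theorem dV_sq (R : Finset G) (hR : ∀ x, ∀ p ∈ (C.row x).support, p.1 ∈ R) :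
    dV C a R * dV C a R = 0 := by
  ext w v
  rw [Matrix.mul_apply, Matrix.zero_apply]
  by_cases hv : v.1 ∈ Gdn a R (C.dim v.2)
  · rw [Finset.sum_congr rfl fun u _ => by rw [dV_pos C a R u v hv]]
    rw [dV_bet C a R hR v.1 (gdn_le a R _ hv) (C.row v.2) (hR v.2) ?_ w, lin_bdc_row, bet_zero,
      Finsupp.zero_apply]
    intro p hp
    rw [row_dim C v.2 p hp] at hv
    exact hv.2 p.1 (hR v.2 p hp)
  · refine Finset.sum_eq_zero fun u _ => ?_
    rw [dV_neg C a R u v hv, mul_zero]

theorem bet_support {X : Type} (v : V) (z : G × X →₀ ℤ) (w : V × X) (h : bet a v z w ≠ 0) :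
    ∃ p ∈ z.support, w = (a v p.1, p.2) := by
  classical
  have h1 : w ∈ (bet a v z).support := Finsupp.mem_support_iff.2 h
  have h2 := Finsupp.mapDomain_support h1
  rw [Finset.mem_image] at h2
  obtain ⟨p, hp, hpw⟩ := h2
  exact ⟨p, hp, hpw.symm⟩

theorem dV_hg (R : Finset G) : Hg (fun v : V × C.X => C.dim v.2) (fun v : V × C.X => C.dim v.2)
    (cst (dV C a R)) (-1) := by
  intro w v h
  have h0 : dV C a R w v ≠ 0 := by
    intro h'
    apply h
    change ((dV C a R w v : ℤ) : ℝ) = 0
    rw [h', Int.cast_zero]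
  by_cases hv : v.1 ∈ Gdn a R (C.dim v.2)
  · rw [dV_pos C a R w v hv] at h0
    obtain ⟨p, hp, rfl⟩ := bet_support a v.1 _ w h0
    have := row_dim C v.2 p hp
    simp only
    omega
  · exact absurd (dV_neg C a R w v hv) h0

theorem dV_bd (hSch : SchStmt) (R : Finset G) (ha : ∀ g, Function.Bijective fun v => a v g) :
    Bd (cst (dV C a R)) (1 + ∑ x, nrm (C.row x)) := by
  have h0 : ∀ w v : V × C.X, |((dV C a R w v : ℤ) : ℝ)| ≤
      |((bet a v.1 (C.row v.2) w : ℤ) : ℝ)| := by
    intro w v
    by_cases hv : v.1 ∈ Gdn a R (C.dim v.2)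
    · rw [dV_pos C a R w v hv]
    · rw [dV_neg C a R w v hv, Int.cast_zero, abs_zero]
      exact abs_nonneg _
  apply hSch
  · intro w
    refine (Finset.sum_le_sum fun v _ => h0 w v).trans ?_
    rw [Fintype.sum_prod_type, Finset.sum_comm]
    have h1 : ∀ x ∈ Finset.univ, ∑ v, |((bet a v (C.row x) w : ℤ) : ℝ)| ≤ nrm (C.row x) :=
      fun x _ => abs_bet_sum' a ha (C.row x) w
    have h2 := Finset.sum_le_sum h1
    linarith
  · intro v
    refine (Finset.sum_le_sum fun w _ => h0 w v).trans ?_
    refine (abs_bet_sum a v.1 (C.row v.2)).trans ?_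
    have := Finset.single_le_sum (f := fun x => nrm (C.row x)) (fun x _ => nrm_nonneg _)
      (Finset.mem_univ v.2)
    linarith

end main

open Classical in
/-- The group elements in the boundaries. -/
def gsup {G : Type} [Group G] (C : Res G) : Finset G :=
  Finset.univ.biUnion fun x => (C.row x).support.image Prod.fst

theorem mem_gsup {G : Type} [Group G] (C : Res G) (x : C.X) (p : G × C.X)
    (hp : p ∈ (C.row x).support) : p.1 ∈ gsup C := by
  classical
  unfold gsup
  rw [Finset.mem_biUnion]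
  exact ⟨x, Finset.mem_univ _, Finset.mem_image_of_mem _ hp⟩

/-- **DVS.** -/
theorem dvs (hSch : SchStmt) : DvsStmt := by
  intro G _ C
  refine ⟨1 + ∑ x, nrm (C.row x), gsup C, ?_, ?_⟩
  · have := Finset.sum_nonneg fun x (_ : x ∈ (Finset.univ : Finset C.X)) => nrm_nonneg (C.row x)
    linarith
  · intro R' hR' V _ _ a ha
    exact ⟨dV_sq C a R' fun x p hp => hR' (mem_gsup C x p hp), dV_hg C a R', dV_bd C a hSch R' ha⟩

end

end Pool.Agent.LT.H75
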